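import Pool.Agent.Helper10K9.MWS.Cov

/-!
# MP_3b0be2_nt: leading coefficients at which the inequality of `H_k(η)` fails

Uniformly in the linear coefficient and for arbitrary bounded coefficients, the set of leading
coefficients `t` at which the inequality with exponent `η` fails has Hausdorff dimension at most
`1 - (j - (2^j + 2) (θ η - ε)) / k`, for each `2 ≤ j ≤ k`.  With `j = 2` this gives the inequality of
`H_k(1/3)`, in particular that of `H_3(1/3)`, at almost every `t`.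
-/

set_option autoImplicit false

open MeasureTheory

namespace Pool.Agent.Results.MP_3b0be2_nt.AlmostEveryT

open Pool.Agent.Helper10K9.MWS
open Pool.Agent.W928.MW (e)

/-- The set of real `t` for which no constant `C` makes
`|∑_{n ≤ N} c_n e(t n^k + ξ n)| ≤ C N^(1+ε) (1/q + 1/N + q/N^k)^η`
true for all `N ≥ 2`, all real `ξ` and all coprime `1 ≤ a < q ≤ N^θ` with `|t - a/q| ≤ 1/q²`. -/
def Exceptional (c : ℕ → ℂ) (k : ℕ) (θ η ε : ℝ) : Set ℝ :=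
  {t : ℝ | ¬ ∃ C : ℝ, ∀ N : ℕ, 2 ≤ N → ∀ ξ : ℝ, ∀ a q : ℕ, 1 ≤ a → a < q → (q : ℝ) ≤ (N : ℝ) ^ θ →
    Nat.Coprime a q → |t - (a : ℝ) / (q : ℝ)| ≤ 1 / (q : ℝ) ^ 2 →
    ‖∑ n ∈ Finset.Icc 1 N, c n *
        Complex.exp (2 * (Real.pi : ℂ) * Complex.I * ((t * (n : ℝ) ^ k + ξ * (n : ℝ) : ℝ) : ℂ))‖ ≤
      C * (N : ℝ) ^ (1 + ε) * (1 / (q : ℝ) + 1 / (N : ℝ) + (q : ℝ) / (N : ℝ) ^ k) ^ η}

theorem exceptional_subset (c : ℕ → ℂ) (k : ℕ) (θ η ε : ℝ) (hη : 0 ≤ η) :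
    Exceptional c k θ η ε ⊆ {t : ℝ | ¬ ∃ C : ℝ, HoldsK c k (1 - θ * η + ε) C t} := by
  intro t ht hC
  apply ht
  obtain ⟨C, hC⟩ := hC
  refine ⟨|C|, ?_⟩
  intro N hN ξ a q ha haq hqN _ _
  have hN1 : (1 : ℝ) ≤ N := by
    have : 1 ≤ N := by omega
    exact_mod_cast this
  have hN0 : (0 : ℝ) < N := by linarith
  have hq0 : (0 : ℝ) < q := by
    have : 0 < q := by omega
    exact_mod_cast this
  have h1 := hC N hN ξ
  have h2 : smc c k N t ξ = ∑ n ∈ Finset.Icc 1 N, c n *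
        Complex.exp (2 * (Real.pi : ℂ) * Complex.I * ((t * (n : ℝ) ^ k + ξ * (n : ℝ) : ℝ) : ℂ)) := rfl
  rw [h2] at h1
  have h3 : (N : ℝ) ^ (1 - θ * η + ε) = (N : ℝ) ^ (1 + ε) * ((N : ℝ) ^ (-θ)) ^ η := by
    rw [← Real.rpow_mul hN0.le, ← Real.rpow_add hN0]
    congr 1
    ring
  have h4 : (N : ℝ) ^ (-θ) ≤ 1 / (q : ℝ) := by
    rw [Real.rpow_neg hN0.le, ← one_div]
    exact one_div_le_one_div_of_le hq0 hqN
  have h5 : ((N : ℝ) ^ (-θ)) ^ η ≤ (1 / (q : ℝ) + 1 / (N : ℝ) + (q : ℝ) / (N : ℝ) ^ k) ^ η := by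
    apply Real.rpow_le_rpow (by positivity) _ hη
    have h6 : (0 : ℝ) ≤ 1 / (N : ℝ) + (q : ℝ) / (N : ℝ) ^ k := by positivity
    linarith
  calc _ ≤ C * (N : ℝ) ^ (1 - θ * η + ε) := h1
    _ ≤ |C| * (N : ℝ) ^ (1 - θ * η + ε) := mul_le_mul_of_nonneg_right (le_abs_self C) (by positivity)
    _ = |C| * (N : ℝ) ^ (1 + ε) * ((N : ℝ) ^ (-θ)) ^ η := by rw [h3]; ring
    _ ≤ _ := mul_le_mul_of_nonneg_left h5 (by positivity)

theorem null_of_dimH_lt (S : Set ℝ) (h : dimH S < 1) : volume S = 0 := by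
  rw [← hausdorffMeasure_real]
  have := hausdorffMeasure_of_dimH_lt (s := S) (d := 1) (by simpa using h)
  simpa using this

/-- **Theorem.** For `2 ≤ j ≤ k`, bounded coefficients `c_n`, `0 ≤ θ, η ≤ 1` and `ε > 0`, the exceptional
set has Hausdorff dimension at most `1 - (j - (2^j + 2) (θ η - ε)) / k`; it is a null set if
`(2^j + 2) (θ η - ε) < j`. -/
theorem result (k j : ℕ) (hj : 2 ≤ j) (hjk : j ≤ k) (c : ℕ → ℂ) (hc : ∀ n, ‖c n‖ ≤ 1) (θ η ε : ℝ)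
    (hθ : 0 ≤ θ) (hθ1 : θ ≤ 1) (hη : 0 ≤ η) (hη1 : η ≤ 1) (hε : 0 < ε) :
    dimH (Exceptional c k θ η ε) ≤ ENNReal.ofReal (1 - ((j : ℝ) - (2 ^ j + 2) * (θ * η - ε)) / k) ∧
    ((2 ^ j + 2) * (θ * η - ε) < (j : ℝ) → volume (Exceptional c k θ η ε) = 0) := by
  have hk0 : (0 : ℝ) < k := by
    have : 0 < k := by omega
    exact_mod_cast this
  have h1 : dimH (Exceptional c k θ η ε) ≤
      ENNReal.ofReal (1 - ((j : ℝ) - (2 ^ j + 2) * (θ * η - ε)) / k) := by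
    have hκ : 0 ≤ 1 - θ * η + ε := by nlinarith
    have h2 := dim_kappa c hc k j hj hjk (1 - θ * η + ε) hκ
    have h3 : (j : ℝ) - (2 ^ j + 2) * (1 - (1 - θ * η + ε)) = (j : ℝ) - (2 ^ j + 2) * (θ * η - ε) := by ring
    rw [h3] at h2
    exact (dimH_mono (exceptional_subset c k θ η ε hη)).trans h2
  refine ⟨h1, fun h2 => ?_⟩
  apply null_of_dimH_lt
  refine h1.trans_lt ?_
  rw [← ENNReal.ofReal_one]
  apply (ENNReal.ofReal_lt_ofReal_iff one_pos).mpr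
  have h3 : 0 < ((j : ℝ) - (2 ^ j + 2) * (θ * η - ε)) / k := div_pos (by linarith) hk0
  linarith

/-- the inequality of `H_k(1/3)` at almost every leading coefficient, uniformly in the linear one -/
theorem ae_third (k : ℕ) (hk : 2 ≤ k) (c : ℕ → ℂ) (hc : ∀ n, ‖c n‖ ≤ 1) :
    ∀ᵐ t : ℝ, ∀ ε : ℝ, 0 < ε → ∃ C : ℝ, ∀ N : ℕ, 2 ≤ N → ∀ ξ : ℝ, ∀ a q : ℕ, 1 ≤ a → a < q → q ≤ N →
    Nat.Coprime a q → |t - (a : ℝ) / (q : ℝ)| ≤ 1 / (q : ℝ) ^ 2 →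
    ‖∑ n ∈ Finset.Icc 1 N, c n *
        Complex.exp (2 * (Real.pi : ℂ) * Complex.I * ((t * (n : ℝ) ^ k + ξ * (n : ℝ) : ℝ) : ℂ))‖ ≤
      C * (N : ℝ) ^ (1 + ε) * (1 / (q : ℝ) + 1 / (N : ℝ) + (q : ℝ) / (N : ℝ) ^ k) ^ (1 / 3 : ℝ) := by
  have h1 : ∀ m : ℕ, ∀ᵐ t : ℝ, t ∉ Exceptional c k 1 (1 / 3) (1 / ((m : ℝ) + 1)) := by
    intro m
    have h2 := (result k 2 le_rfl hk c hc 1 (1 / 3) (1 / ((m : ℝ) + 1)) (by norm_num) (by norm_num) (by norm_num)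
      (by norm_num) (by positivity)).2 (by
        have : 0 < 1 / ((m : ℝ) + 1) := by positivity
        push_cast
        linarith)
    exact measure_eq_zero_iff_ae_notMem.mp h2
  rw [← ae_all_iff] at h1
  filter_upwards [h1] with t ht
  intro ε hε
  obtain ⟨m, hm⟩ := exists_nat_one_div_lt hε
  have h2 := ht m
  unfold Exceptional at h2
  rw [Set.mem_ofPred_eq, not_not] at h2
  obtain ⟨C, hC⟩ := h2
  refine ⟨|C|, ?_⟩
  intro N hN ξ a q ha haq hqN hcop hap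
  have hN1 : (1 : ℝ) ≤ N := by
    have : 1 ≤ N := by omega
    exact_mod_cast this
  refine (hC N hN ξ a q ha haq (by rw [Real.rpow_one]; exact_mod_cast hqN) hcop hap).trans ?_
  apply mul_le_mul_of_nonneg_right _ (by positivity)
  calc C * (N : ℝ) ^ (1 + 1 / ((m : ℝ) + 1)) ≤ |C| * (N : ℝ) ^ (1 + 1 / ((m : ℝ) + 1)) :=
        mul_le_mul_of_nonneg_right (le_abs_self C) (by positivity)
    _ ≤ |C| * (N : ℝ) ^ (1 + ε) := by
        apply mul_le_mul_of_nonneg_left _ (abs_nonneg C)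
        exact Real.rpow_le_rpow_of_exponent_le hN1 (by linarith)

end Pool.Agent.Results.MP_3b0be2_nt.AlmostEveryT
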